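import Mathlib

set_option autoImplicit false

namespace Pool.Agent.W51.Cliques

/-- the part of `L` coprime to `u` -/
theorem coprime_part (u : ℕ) : ∀ L : ℕ, 0 < L →
    ∃ Q s : ℕ, 0 < Q ∧ Nat.Coprime Q u ∧ L ∣ Q * u ^ s := by
  intro L
  induction L using Nat.strong_induction_on with
  | _ L ih =>
    intro hL
    by_cases h : Nat.gcd L u = 1
    · exact ⟨L, 0, hL, h, by simp⟩
    · have hg : 1 < Nat.gcd L u := by
        have := Nat.gcd_pos_of_pos_left u hL
        omega
      have hdvd : Nat.gcd L u ∣ L := Nat.gcd_dvd_left L u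
      have hlt : L / Nat.gcd L u < L := Nat.div_lt_self hL hg
      have hpos : 0 < L / Nat.gcd L u :=
        Nat.div_pos (Nat.le_of_dvd hL hdvd) (by omega)
      obtain ⟨Q, s, hQ, hc, hd⟩ := ih _ hlt hpos
      refine ⟨Q, s + 1, hQ, hc, ?_⟩
      have h1 : L = L / Nat.gcd L u * Nat.gcd L u := (Nat.div_mul_cancel hdvd).symm
      rw [h1, pow_succ, ← mul_assoc]
      exact mul_dvd_mul hd (Nat.gcd_dvd_right L u)

/-- For coprime `u`, `v` there are arbitrarily large finite sets of positive integers such that
`(x - y) v ∣ y` and `(x - y) u ∣ x` for any two members `y < x`. -/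
theorem cliques (u v : ℤ) (hu : 0 < u) (hv : 0 < v) (huv : IsCoprime u v) (k : ℕ) :
    ∃ S : Finset ℤ, S.card = k ∧ (∀ x ∈ S, 0 < x) ∧
      ∀ x ∈ S, ∀ y ∈ S, y < x → (x - y) * v ∣ y ∧ (x - y) * u ∣ x := by
  induction k with
  | zero => exact ⟨∅, by simp⟩
  | succ k ih =>
    obtain ⟨S₀, hcard₀, hpos₀, hS₀⟩ := ih
    -- scale by `u`
    obtain ⟨S, hcard, hpos, hS, hSu⟩ : ∃ S : Finset ℤ, S.card = k ∧ (∀ x ∈ S, 0 < x) ∧
        (∀ x ∈ S, ∀ y ∈ S, y < x → (x - y) * v ∣ y ∧ (x - y) * u ∣ x) ∧ ∀ x ∈ S, u ∣ x := by
      refine ⟨S₀.image (fun x => u * x), ?_, ?_, ?_, ?_⟩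
      · rw [Finset.card_image_of_injective _ (fun a b h => by
          simpa [hu.ne'] using h), hcard₀]
      · intro x hx
        obtain ⟨x', hx', rfl⟩ := Finset.mem_image.1 hx
        exact mul_pos hu (hpos₀ x' hx')
      · intro x hx y hy hlt
        obtain ⟨x', hx', rfl⟩ := Finset.mem_image.1 hx
        obtain ⟨y', hy', rfl⟩ := Finset.mem_image.1 hy
        have hlt' : y' < x' := by
          exact lt_of_mul_lt_mul_left hlt hu.le
        obtain ⟨h1, h2⟩ := hS₀ x' hx' y' hy' hlt'
        constructor
        · have : (u * x' - u * y') * v = u * ((x' - y') * v) := by ring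
          simp only [this]
          exact mul_dvd_mul_left u h1
        · have : (u * x' - u * y') * u = u * ((x' - y') * u) := by ring
          simp only [this]
          exact mul_dvd_mul_left u h2
      · intro x hx
        obtain ⟨x', hx', rfl⟩ := Finset.mem_image.1 hx
        exact dvd_mul_right u x'
    -- the product of all the elements
    set L : ℤ := ∏ x ∈ S, x with hL
    have hLpos : 0 < L := Finset.prod_pos hpos
    obtain ⟨Q, s, hQ, hQc, hQd⟩ := coprime_part u.toNat L.toNat (by omega)
    have hQcu : IsCoprime (Q : ℤ) u := by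
      have h1 : IsCoprime (Q : ℤ) ((u.toNat : ℕ) : ℤ) := Nat.isCoprime_iff_coprime.2 hQc
      rwa [Int.toNat_of_nonneg hu.le] at h1
    have hQdz : L ∣ (Q : ℤ) * u ^ s := by
      have h1 : ((L.toNat : ℕ) : ℤ) ∣ ((Q * u.toNat ^ s : ℕ) : ℤ) := Int.natCast_dvd_natCast.2 hQd
      push_cast at h1
      rwa [Int.toNat_of_nonneg hu.le, Int.toNat_of_nonneg hLpos.le] at h1
    set t : ℤ := v * Q with ht
    have htpos : 0 < t := by positivity
    have htu : IsCoprime t u := by
      rw [ht]
      exact IsCoprime.mul_left huv.symm hQcu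
    set W : ℤ := ∏ x ∈ S, (x + t) with hW
    have hWpos : 0 < W := Finset.prod_pos (fun x hx => by have := hpos x hx; omega)
    have hxt : ∀ x ∈ S, IsCoprime (x + t) u := by
      intro x hx
      obtain ⟨c, hc⟩ := hSu x hx
      rw [hc, add_comm]
      exact (IsCoprime.add_mul_left_left_iff).2 htu
    have hWu : IsCoprime W u := IsCoprime.prod_left hxt
    -- Bezout
    have hgcd : (Int.gcd (v * W) (u * v * L) : ℤ) ∣ t := by
      have h1 : (Int.gcd (v * W) (u * v * L) : ℤ) ∣ v * (Q * u ^ (s + 1)) := by
        refine (Int.gcd_dvd_right _ _).trans ?_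
        have : v * (Q * u ^ (s + 1)) = u * v * (Q * u ^ s) := by ring
        rw [this]
        exact mul_dvd_mul_left _ hQdz
      have h2 : (Int.gcd (v * W) (u * v * L) : ℤ) ∣ v * W := Int.gcd_dvd_left _ _
      -- `W` is coprime to `u ^ (s + 1)`
      obtain ⟨α, β, hαβ⟩ := (IsCoprime.pow_right hWu : IsCoprime W (u ^ (s + 1)))
      have h3 : t = v * W * (α * Q) + v * (Q * u ^ (s + 1)) * β := by
        rw [ht]
        calc v * (Q : ℤ) = v * Q * (α * W + β * u ^ (s + 1)) := by rw [hαβ, mul_one]
          _ = _ := by ring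
      rw [h3]
      exact dvd_add (h2.mul_right _) (h1.mul_right _)
    obtain ⟨z, hzpos, hz1, hz2⟩ : ∃ z : ℤ, 0 < z ∧ v * W ∣ z ∧ u * v * L ∣ z + t := by
      obtain ⟨c, hc⟩ := hgcd
      have hb := Int.gcd_eq_gcd_ab (v * W) (u * v * L)
      set α := Int.gcdA (v * W) (u * v * L)
      set β := Int.gcdB (v * W) (u * v * L)
      have h1 : t = v * W * (α * c) + u * v * L * (β * c) := by
        rw [hc, hb]; ring
      have hMpos : 0 < (v * W) * (u * v * L) := by positivity
      -- `z = - v W α c + N (v W) (u v L)`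
      refine ⟨-(v * W * (α * c)) + (|v * W * (α * c)| + 1) * ((v * W) * (u * v * L)), ?_, ?_, ?_⟩
      · have h2 : (|v * W * (α * c)| + 1) * 1 ≤ (|v * W * (α * c)| + 1) * ((v * W) * (u * v * L)) :=
          mul_le_mul_of_nonneg_left (by omega) (by positivity)
        have h3 := le_abs_self (v * W * (α * c))
        omega
      · exact dvd_add ((dvd_mul_right _ _).neg_right) ((dvd_mul_right _ _).mul_left _)
      · have h4 : -(v * W * (α * c)) + (|v * W * (α * c)| + 1) * ((v * W) * (u * v * L)) + t =
            u * v * L * (β * c + (|v * W * (α * c)| + 1) * (v * W)) := by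
          linear_combination h1
        rw [h4]
        exact dvd_mul_right _ _
    have hxL : ∀ x ∈ S, x ∣ L := fun x hx => Finset.dvd_prod_of_mem _ hx
    have hxW : ∀ x ∈ S, (x + t) ∣ W := fun x hx => Finset.dvd_prod_of_mem (fun x => x + t) hx
    have hzu : u ∣ z + t := ((dvd_mul_right u (v * L)).trans (by rw [← mul_assoc])).trans hz2
    -- the new pairs
    have hnew : ∀ x ∈ S, (x + t) * v ∣ z ∧ (x + t) * u ∣ z + t + x := by
      intro x hx
      constructor
      · refine Dvd.dvd.trans ?_ hz1
        rw [mul_comm]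
        exact mul_dvd_mul_left v (hxW x hx)
      · refine IsCoprime.mul_dvd (hxt x hx) ?_ ?_
        · have h1 : x + t ∣ z := ((hxW x hx).mul_left v).trans hz1
          have : z + t + x = z + (x + t) := by ring
          rw [this]
          exact dvd_add h1 dvd_rfl
        · exact dvd_add hzu (hSu x hx)
    refine ⟨insert z (S.image (fun x => z + t + x)), ?_, ?_, ?_⟩
    · rw [Finset.card_insert_of_notMem, Finset.card_image_of_injective _ (add_right_injective _),
        hcard]
      intro hmem
      obtain ⟨x, hx, h⟩ := Finset.mem_image.1 hmem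
      have := hpos x hx
      omega
    · intro x hx
      rcases Finset.mem_insert.1 hx with rfl | hx
      · exact hzpos
      · obtain ⟨x', hx', rfl⟩ := Finset.mem_image.1 hx
        have := hpos x' hx'
        omega
    · intro x hx y hy hlt
      rcases Finset.mem_insert.1 hx with rfl | hx <;> rcases Finset.mem_insert.1 hy with rfl | hy
      · exact absurd hlt (lt_irrefl _)
      · obtain ⟨y', hy', rfl⟩ := Finset.mem_image.1 hy
        have := hpos y' hy'
        exfalso
        omega
      · obtain ⟨x', hx', rfl⟩ := Finset.mem_image.1 hx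
        have h := hnew x' hx'
        have e : y + t + x' - y = x' + t := by ring
        rw [e]
        exact h
      · obtain ⟨x', hx', rfl⟩ := Finset.mem_image.1 hx
        obtain ⟨y', hy', rfl⟩ := Finset.mem_image.1 hy
        have hlt' : y' < x' := by omega
        obtain ⟨h1, h2⟩ := hS x' hx' y' hy' hlt'
        have e : z + t + x' - (z + t + y') = x' - y' := by ring
        rw [e]
        have hdx : x' - y' ∣ x' := (dvd_mul_right _ _).trans h2
        have hdL : x' - y' ∣ L := hdx.trans (hxL x' hx')
        have h3 : (x' - y') * v ∣ z + t := by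
          refine Dvd.dvd.trans ?_ hz2
          have : u * v * L = u * (L * v) := by ring
          rw [this]
          exact (mul_dvd_mul_right hdL v).mul_left u
        have h4 : (x' - y') * u ∣ z + t := by
          refine Dvd.dvd.trans ?_ hz2
          have : u * v * L = v * (L * u) := by ring
          rw [this]
          exact (mul_dvd_mul_right hdL u).mul_left v
        exact ⟨dvd_add h3 h1, dvd_add h4 h2⟩

end Pool.Agent.W51.Cliques
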